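import Pool.Agent.Y87.SU.Idem
import Pool.Agent.Y142.SU.Stm

/-!
# Adapted bases of a form with a nontrivial involution of the coefficients (helper87)
-/

set_option autoImplicit false

open Finset Matrix Module
open Pool.Agent.Y142.SU

namespace Pool.Agent.Y87.SU

variable {F : Type} [Field F] {N : ℕ}

/-- the sign of the form -/
theorem exists_sign {J : Matrix (Fin N) (Fin N) F} (h : Jᵀ = J ∨ Jᵀ = -J) :
    ∃ ε : F, ε * ε = 1 ∧ Jᵀ = ε • J := by
  rcases h with h | h
  · exact ⟨1, one_mul 1, by rw [h, one_smul]⟩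
  · exact ⟨-1, by ring, by rw [h, neg_one_smul]⟩

/-- the adjoint permutes the primitive idempotents without fixed points -/
theorem exists_star {J : Matrix (Fin N) (Fin N) F} {𝒞 : Subalgebra F (Matrix (Fin N) (Fin N) F)}
    (hH : Herm J 𝒞) {r : ℕ} {e : Fin r → Matrix (Fin N) (Fin N) F} (he : ∀ t, e t ∈ 𝒞)
    (he0 : ∀ t, e t ≠ 0) (hid : ∀ t, e t * e t = e t) (hort : ∀ s t, s ≠ t → e s * e t = 0)
    (hsum : ∑ t, e t = 1) (hev : ∀ A ∈ 𝒞, ∀ (t : Fin r), ∃ a : F, A * e t = a • e t) :
    ∃ st : Fin r → Fin r, (∀ t, st (st t) = t) ∧ (∀ t, st t ≠ t) ∧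
      ∀ t, (e t)ᵀ * J = J * e (st t) := by
  obtain ⟨hJ, hdet, hcomm, hadj, A0, hA0, A1, hA1, hA01, hd⟩ := hH
  obtain ⟨ε, hε, hJε⟩ := exists_sign hJ
  have hε0 : ε ≠ 0 := fun h => by rw [h, zero_mul] at hε; exact zero_ne_one hε
  have hu : IsUnit J.det := isUnit_iff_ne_zero.2 hdet
  have hcan : ∀ X Y : Matrix (Fin N) (Fin N) F, J * X = J * Y → X = Y := by
    intro X Y h
    have h1 := congrArg (fun Z => J⁻¹ * Z) h
    simpa only [← mul_assoc, nonsing_inv_mul _ hu, one_mul] using h1
  have hcan' : ∀ X Y : Matrix (Fin N) (Fin N) F, X * J = Y * J → X = Y := by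
    intro X Y h
    have h1 := congrArg (fun Z => Z * J⁻¹) h
    simpa only [mul_assoc, mul_nonsing_inv _ hu, mul_one] using h1
  -- the adjoint of an adjoint
  have hadj2 : ∀ A A' : Matrix (Fin N) (Fin N) F, Aᵀ * J = J * A' → A'ᵀ * J = J * A := by
    intro A A' h
    have h1 := congrArg Matrix.transpose h
    rw [transpose_mul, transpose_mul, transpose_transpose, hJε, smul_mul_assoc,
      mul_smul_comm] at h1
    exact (smul_right_injective _ hε0 h1).symm
  have hinj : ∀ s t, e s = e t → s = t := by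
    intro s t h
    by_contra hst
    have h1 := hort s t hst
    rw [h, hid] at h1
    exact he0 t h1
  have key : ∀ t, ∃ s, (e t)ᵀ * J = J * e s := by
    intro t
    obtain ⟨f, hf, hft⟩ := hadj (e t) (he t)
    have hff : f * f = f := by
      apply hcan
      rw [← mul_assoc, ← hft, mul_assoc, ← hft, ← mul_assoc, ← transpose_mul, hid]
    have hf0 : f ≠ 0 := by
      intro h
      rw [h, mul_zero] at hft
      have h1 : (e t)ᵀ = 0 := hcan' _ _ (by rw [hft, zero_mul])
      exact he0 t (by rw [← transpose_transpose (e t), h1, transpose_zero])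
    -- `f` is primitive
    have hprim : ∀ A ∈ 𝒞, ∃ b : F, A * f = b • f := by
      intro A hA
      obtain ⟨B, hB, hAB⟩ := hadj A hA
      have hBA := hadj2 A B hAB
      obtain ⟨b, hb⟩ := hev B hB t
      refine ⟨b, hcan _ _ ?_⟩
      have h1 : (e t)ᵀ * Bᵀ * J = b • ((e t)ᵀ * J) := by
        rw [← transpose_mul, hb, transpose_smul, smul_mul_assoc]
      rw [mul_assoc, hBA, ← mul_assoc, hft, mul_assoc] at h1
      rw [mul_smul_comm, ← h1, hcomm f hf A hA]
    have hex : ∃ s, e s * f ≠ 0 := by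
      by_contra hcon
      push Not at hcon
      apply hf0
      rw [← one_mul f, ← hsum, Finset.sum_mul]
      exact Finset.sum_eq_zero fun s _ => hcon s
    obtain ⟨s, hs⟩ := hex
    obtain ⟨a, ha⟩ := hev f hf s
    obtain ⟨b, hb⟩ := hprim (e s) (he s)
    have hcf : e s * f = f * e s := hcomm _ (he s) _ hf
    have hs' : e s * f = a • e s := by rw [hcf, ha]
    -- `e s * f` is idempotent
    have ha1 : a = 1 := by
      have h1 : (e s * f) * f = e s * f := by rw [mul_assoc, hff]
      rw [hs', smul_mul_assoc, hs', smul_smul] at h1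
      have h2 : (a * a - a) • e s = 0 := by rw [sub_smul, h1, sub_self]
      rcases smul_eq_zero.1 h2 with h3 | h3
      · have h4 : a * (a - 1) = 0 := by rw [← h3]; ring
        rcases mul_eq_zero.1 h4 with h5 | h5
        · exfalso
          apply hs
          rw [hs', h5, zero_smul]
        · exact sub_eq_zero.1 h5
      · exact absurd h3 (he0 s)
    have hb1 : b = 1 := by
      have h1 : e s * (e s * f) = e s * f := by rw [← mul_assoc, hid]
      rw [hb, mul_smul_comm, hb, smul_smul] at h1
      have h2 : (b * b - b) • f = 0 := by rw [sub_smul, h1, sub_self]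
      rcases smul_eq_zero.1 h2 with h3 | h3
      · have h4 : b * (b - 1) = 0 := by rw [← h3]; ring
        rcases mul_eq_zero.1 h4 with h5 | h5
        · exfalso
          apply hs
          rw [hb, h5, zero_smul]
        · exact sub_eq_zero.1 h5
      · exact absurd h3 hf0
    refine ⟨s, ?_⟩
    have h1 : e s = f := by
      rw [ha1, one_smul] at hs'
      rw [hb1, one_smul] at hb
      rw [← hs', hb]
    rw [h1, hft]
  choose st hst using key
  have hinv : ∀ t, st (st t) = t := by
    intro t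
    apply hinj
    apply hcan
    rw [← hst (st t)]
    exact hadj2 _ _ (hst t)
  refine ⟨st, hinv, ?_, hst⟩
  intro t ht
  obtain ⟨a, ha⟩ := hev A0 hA0 t
  -- `A1 * e t = a • e t`
  have h1 : A1 * e t = a • e t := by
    apply hcan
    have h2 : (A0 * e t)ᵀ * J = (a • e t)ᵀ * J := by rw [ha]
    rw [transpose_mul, mul_assoc, hA01, ← mul_assoc, hst, ht, mul_assoc, transpose_smul,
      smul_mul_assoc, hst, ht] at h2
    rw [mul_smul_comm, ← h2, hcomm A1 hA1 (e t) (he t)]
  have h2 : (A0 - A1) * e t = 0 := by rw [sub_mul, ha, h1, sub_self]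
  apply he0 t
  have hu2 : IsUnit (A0 - A1).det := isUnit_iff_ne_zero.2 hd
  have h3 := congrArg (fun Z => (A0 - A1)⁻¹ * Z) h2
  simpa only [← mul_assoc, nonsing_inv_mul _ hu2, one_mul, mul_zero] using h3

end Pool.Agent.Y87.SU
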