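import Pool.Agent.Y87.SU.Bas

/-!
# Adapted bases of a form with a nontrivial involution of the coefficients, II (helper87)
-/

set_option autoImplicit false

open Finset Matrix Module

namespace Pool.Agent.Y87.SU

variable {F : Type} [Field F] {N : ℕ}

theorem exists_dot (f : (Fin N → F) →ₗ[F] F) : ∃ z : Fin N → F, ∀ x, f x = x ⬝ᵥ z := by
  refine ⟨fun j => f (Pi.single j 1), fun x => ?_⟩
  rw [dotProduct]
  conv_lhs => rw [pi_eq_sum_univ' x, map_sum]
  refine Finset.sum_congr rfl fun i _ => ?_
  rw [map_smul, smul_eq_mul]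

theorem form_nondeg {J : Matrix (Fin N) (Fin N) F} (hdet : J.det ≠ 0) {w : Fin N → F}
    (h : ∀ x : Fin N → F, x ⬝ᵥ J *ᵥ w = 0) : w = 0 := by
  have h1 : J *ᵥ w = 0 := by
    funext i
    have := h (Pi.single i 1)
    rwa [single_one_dotProduct] at this
  have hu : IsUnit J.det := isUnit_iff_ne_zero.2 hdet
  have h2 : J⁻¹ *ᵥ (J *ᵥ w) = 0 := by rw [h1, mulVec_zero]
  rwa [mulVec_mulVec, nonsing_inv_mul _ hu, one_mulVec] at h2

theorem form_symm {J : Matrix (Fin N) (Fin N) F} {ε : F} (hJ : Jᵀ = ε • J) (x y : Fin N → F) :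
    y ⬝ᵥ J *ᵥ x = ε * (x ⬝ᵥ J *ᵥ y) := by
  rw [dotProduct_mulVec, ← mulVec_transpose, hJ, smul_mulVec, smul_dotProduct, smul_eq_mul,
    dotProduct_comm]

theorem form_adj {J A A' : Matrix (Fin N) (Fin N) F} (h : Aᵀ * J = J * A') (x y : Fin N → F) :
    (A *ᵥ x) ⬝ᵥ J *ᵥ y = x ⬝ᵥ J *ᵥ (A' *ᵥ y) := by
  rw [mulVec_mulVec, ← h, ← mulVec_mulVec, dotProduct_mulVec x, vecMul_transpose]

/-- the adapted basis -/
theorem exists_adapted {J : Matrix (Fin N) (Fin N) F} {ε : F} (hε : ε * ε = 1)
    (hJ : Jᵀ = ε • J) (hdet : J.det ≠ 0) {r n : ℕ} {e : Fin r → Matrix (Fin N) (Fin N) F}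
    (hid : ∀ t, e t * e t = e t) (hort : ∀ s t, s ≠ t → e s * e t = 0)
    (hsum : ∑ t, e t = 1) (hn : ∀ t, n ≤ (e t).rank) {st : Fin r → Fin r}
    (hst : ∀ t, st (st t) = t) (hst1 : ∀ t, st t ≠ t) (hst2 : ∀ t, (e t)ᵀ * J = J * e (st t)) :
    ∃ (B : Type) (_ : Fintype B) (_ : DecidableEq B) (hat : B → B) (ty : B → Fin r)
      (q : Basis B F (Fin N → F)) (κ : Fin r → F),
      (∀ a, hat (hat a) = a) ∧ (∀ a, ty (hat a) = st (ty a)) ∧ (∀ t, κ t ≠ 0) ∧
      (∀ t, κ (st t) = ε * κ t) ∧
      (∀ a, e (ty a) *ᵥ q a = q a) ∧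
      (∀ a b, q a ⬝ᵥ J *ᵥ q b = if b = hat a then κ (ty a) else 0) ∧
      ∀ t, n ≤ (univ.filter fun a => ty a = t).card := by
  classical
  have hε0 : ε ≠ 0 := fun h => by rw [h, zero_mul] at hε; exact zero_ne_one hε
  have hu : IsUnit J.det := isUnit_iff_ne_zero.2 hdet
  let d : Fin r → ℕ := fun t => finrank F (LinearMap.range (e t).mulVecLin)
  let β : ∀ t, Basis (Fin (d t)) F (LinearMap.range (e t).mulVecLin) := fun t => Module.finBasis F _
  have hβ : ∀ t i, e t *ᵥ (β t i : Fin N → F) = (β t i : Fin N → F) := by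
    intro t i
    obtain ⟨u, hu⟩ := (β t i).2
    rw [← hu, mulVecLin_apply, mulVec_mulVec, hid]
  -- the dual vectors
  have hy : ∀ (t : Fin r) (i : Fin (d t)), ∃ y : Fin N → F, e (st t) *ᵥ y = y ∧
      ∀ x, x ⬝ᵥ J *ᵥ y = (β t).repr ((e t).mulVecLin.rangeRestrict x) i := by
    intro t i
    obtain ⟨z, hz⟩ := exists_dot ((β t).coord i ∘ₗ (e t).mulVecLin.rangeRestrict)
    have h1 : ∀ x, x ⬝ᵥ J *ᵥ (J⁻¹ *ᵥ z) =
        (β t).repr ((e t).mulVecLin.rangeRestrict x) i := by
      intro x
      rw [mulVec_mulVec, mul_nonsing_inv _ hu, one_mulVec, ← hz x]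
      rfl
    refine ⟨J⁻¹ *ᵥ z, ?_, h1⟩
    have h2 : e (st t) *ᵥ (J⁻¹ *ᵥ z) - J⁻¹ *ᵥ z = 0 := by
      apply form_nondeg hdet
      intro x
      rw [mulVec_sub, dotProduct_sub, ← form_adj (hst2 t), h1, h1, sub_eq_zero]
      congr 2
      apply Subtype.ext
      show e t *ᵥ (e t *ᵥ x) = e t *ᵥ x
      rw [mulVec_mulVec, hid]
    exact sub_eq_zero.1 h2
  choose y hy1 hy2 using hy
  let B0 : Type := Σ t : {t : Fin r // t < st t}, Fin (d t.1)
  let q0 : B0 × Bool → Fin N → F := fun a =>
    if a.2 then y a.1.1.1 a.1.2 else (β a.1.1.1 a.1.2 : Fin N → F)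
  let hat : B0 × Bool → B0 × Bool := fun a => (a.1, !a.2)
  let ty : B0 × Bool → Fin r := fun a => if a.2 then st a.1.1.1 else a.1.1.1
  let κ : Fin r → F := fun t => if t < st t then 1 else ε
  have hhat : ∀ a, hat (hat a) = a := fun a => by simp [hat]
  have hty : ∀ a, ty (hat a) = st (ty a) := by
    rintro ⟨a, b⟩
    cases b
    · simp [hat, ty]
    · simp [hat, ty, hst]
  have hκ0 : ∀ t, κ t ≠ 0 := by
    intro t
    simp only [κ]
    split_ifs
    · exact one_ne_zero
    · exact hε0
  have hκst : ∀ t, κ (st t) = ε * κ t := by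
    intro t
    simp only [κ, hst]
    rcases lt_or_gt_of_ne (hst1 t) with h | h
    · rw [if_pos h, if_neg (not_lt.2 h.le), hε]
    · rw [if_neg (not_lt.2 h.le), if_pos h, mul_one]
  have hev : ∀ a, e (ty a) *ᵥ q0 a = q0 a := by
    rintro ⟨a, b⟩
    cases b
    · simp only [ty, q0, Bool.false_eq_true, if_false]
      exact hβ _ _
    · simp only [ty, q0, if_true]
      exact hy1 _ _
  -- the Gram matrix between different types
  have hgram0 : ∀ (s t : Fin r) (u v : Fin N → F), e s *ᵥ u = u → e t *ᵥ v = v → t ≠ st s →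
      u ⬝ᵥ J *ᵥ v = 0 := by
    intro s t u v hu hv hts
    rw [← hu, form_adj (hst2 s), ← hv, mulVec_mulVec (M := e (st s)), hort _ _ (Ne.symm hts),
      zero_mulVec, mulVec_zero, dotProduct_zero]
  have hββ : ∀ (t : Fin r) (i j : Fin (d t)), (β t i : Fin N → F) ⬝ᵥ J *ᵥ y t j =
      if i = j then 1 else 0 := by
    intro t i j
    rw [hy2]
    have h1 : (e t).mulVecLin.rangeRestrict (β t i : Fin N → F) = β t i := by
      apply Subtype.ext
      exact hβ t i
    rw [h1, Basis.repr_self, Finsupp.single_apply]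
  have hgram : ∀ a b, q0 a ⬝ᵥ J *ᵥ q0 b = if b = hat a then κ (ty a) else 0 := by
    rintro ⟨⟨⟨s, hs⟩, i⟩, l⟩ ⟨⟨⟨t, ht⟩, j⟩, l'⟩
    by_cases hst' : s = t
    · subst hst'
      cases l <;> cases l'
      · -- both in `V_s`
        simp only [hat, q0, ty, Bool.false_eq_true, if_false, Bool.not_false]
        rw [if_neg (by simp)]
        exact hgram0 s s _ _ (hβ _ _) (hβ _ _) (Ne.symm (hst1 s))
      · simp only [hat, q0, ty, κ, Bool.false_eq_true, if_false, Bool.not_false, if_true]
        rw [hββ, if_pos ht]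
        by_cases hij : i = j
        · subst hij
          rw [if_pos rfl, if_pos rfl]
        · rw [if_neg hij, if_neg]
          intro h
          apply hij
          exact (eq_of_heq (Sigma.mk.inj_iff.1 (Prod.ext_iff.1 h).1).2).symm
      · simp only [hat, q0, ty, κ, Bool.false_eq_true, if_false, Bool.not_true, if_true, hst]
        rw [form_symm hJ, hββ, if_neg (not_lt.2 ht.le)]
        by_cases hij : j = i
        · subst hij
          rw [if_pos rfl, if_pos rfl, mul_one]
        · rw [if_neg hij, if_neg, mul_zero]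
          intro h
          apply hij
          exact eq_of_heq (Sigma.mk.inj_iff.1 (Prod.ext_iff.1 h).1).2
      · simp only [hat, q0, ty, if_true, Bool.not_true]
        rw [if_neg (by simp)]
        exact hgram0 (st s) (st s) _ _ (hy1 _ _) (hy1 _ _) (Ne.symm (hst1 (st s)))
    · rw [if_neg (by
        intro h
        apply hst'
        exact (congrArg (fun z : B0 => z.1.1) (Prod.ext_iff.1 h).1).symm)]
      refine hgram0 _ _ _ _ (hev _) (hev _) ?_
      cases l <;> cases l'
      · simp only [ty, Bool.false_eq_true, if_false]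
        rintro rfl
        rw [hst] at ht
        exact lt_asymm hs ht
      · simp only [ty, Bool.false_eq_true, if_false, if_true]
        intro h
        apply hst'
        rw [← hst s, ← h, hst]
      · simp only [ty, Bool.false_eq_true, if_false, if_true, hst]
        exact fun h => hst' h.symm
      · simp only [ty, if_true, hst]
        rintro rfl
        rw [hst] at hs
        exact lt_asymm hs ht
  have hhat_inj : ∀ a b, hat a = hat b → a = b := fun a b h => by rw [← hhat a, h, hhat]
  -- linear independence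
  have hli : LinearIndependent F q0 := by
    rw [Fintype.linearIndependent_iff]
    intro g hg a
    have h1 : q0 (hat a) ⬝ᵥ J *ᵥ (∑ b, g b • q0 b) = 0 := by
      rw [hg, mulVec_zero, dotProduct_zero]
    rw [mulVec_sum, dotProduct_sum, Finset.sum_eq_single a] at h1
    · rw [mulVec_smul, dotProduct_smul, hgram, if_pos (hhat a).symm, smul_eq_mul] at h1
      exact (mul_eq_zero.1 h1).resolve_right (hκ0 _)
    · intro b _ hb
      rw [mulVec_smul, dotProduct_smul, hgram, if_neg, smul_zero]
      rw [hhat]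
      exact hb
    · intro h
      exact absurd (mem_univ _) h
  -- only zero is orthogonal to all
  have hzero : ∀ w : Fin N → F, (∀ a, q0 a ⬝ᵥ J *ᵥ w = 0) → w = 0 := by
    intro w hw
    have h1 : ∀ t, t < st t → e (st t) *ᵥ w = 0 ∧ e t *ᵥ w = 0 := by
      intro t ht
      constructor
      · apply form_nondeg hdet
        intro x
        rw [← form_adj (hst2 t)]
        have h2 : e t *ᵥ x = ((∑ i, (β t).repr ((e t).mulVecLin.rangeRestrict x) i • β t i :
            LinearMap.range (e t).mulVecLin) : Fin N → F) := by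
          rw [Basis.sum_repr]
          rfl
        rw [h2, Submodule.coe_sum, sum_dotProduct]
        refine Finset.sum_eq_zero fun i _ => ?_
        rw [Submodule.coe_smul, smul_dotProduct]
        have h3 := hw (⟨⟨t, ht⟩, i⟩, false)
        simp only [q0, Bool.false_eq_true, if_false] at h3
        rw [h3, smul_zero]
      · have h2 : (e t).mulVecLin.rangeRestrict w = 0 := by
          apply (β t).ext_elem
          intro i
          rw [map_zero, Finsupp.zero_apply, ← hy2, form_symm hJ]
          have h3 := hw (⟨⟨t, ht⟩, i⟩, true)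
          simp only [q0, if_true] at h3
          rw [h3, mul_zero]
        exact congrArg Subtype.val h2
    rw [← one_mulVec w, ← hsum, sum_mulVec]
    refine Finset.sum_eq_zero fun t _ => ?_
    rcases lt_or_gt_of_ne (hst1 t) with h | h
    · have := (h1 (st t) (by rw [hst]; exact h)).1
      rwa [hst] at this
    · exact (h1 t h).2
  -- spanning
  have hsp : ⊤ ≤ Submodule.span F (Set.range q0) := by
    intro v _
    have h1 : v - ∑ a, ((κ (ty (hat a)))⁻¹ * (q0 (hat a) ⬝ᵥ J *ᵥ v)) • q0 a = 0 := by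
      apply hzero
      intro b
      rw [mulVec_sub, dotProduct_sub, mulVec_sum, dotProduct_sum, Finset.sum_eq_single (hat b),
        mulVec_smul, dotProduct_smul, hgram, if_pos rfl, hhat, smul_eq_mul, mul_right_comm,
        inv_mul_cancel₀ (hκ0 _), one_mul, sub_self]
      · intro a _ ha
        rw [mulVec_smul, dotProduct_smul, hgram, if_neg ha, smul_zero]
      · intro h
        exact absurd (mem_univ _) h
    rw [sub_eq_zero.1 h1]
    exact Submodule.sum_mem _ fun a _ => Submodule.smul_mem _ _ (Submodule.subset_span ⟨a, rfl⟩)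
  refine ⟨B0 × Bool, inferInstance, inferInstance, hat, ty, Basis.mk hli hsp, κ, hhat, hty, hκ0,
    hκst, ?_, ?_, ?_⟩
  · intro a
    rw [Basis.mk_apply]
    exact hev a
  · intro a b
    rw [Basis.mk_apply, Basis.mk_apply]
    exact hgram a b
  · intro t
    rcases lt_or_gt_of_ne (hst1 t) with h | h
    · -- `st t < t`
      have h1 : st t < st (st t) := by rw [hst]; exact h
      refine (hn (st t)).trans ?_
      have h2 : (univ.image fun i : Fin (d (st t)) =>
          ((⟨⟨st t, h1⟩, i⟩, true) : B0 × Bool)).card = (e (st t)).rank := by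
        rw [card_image_of_injective _ (by
          intro i j hij
          exact eq_of_heq (Sigma.mk.inj_iff.1 (Prod.ext_iff.1 hij).1).2), card_univ,
          Fintype.card_fin]
        rfl
      rw [← h2]
      refine card_le_card ?_
      intro a ha
      obtain ⟨i, -, rfl⟩ := mem_image.1 ha
      simp [ty, hst]
    · refine (hn t).trans ?_
      have h2 : (univ.image fun i : Fin (d t) =>
          ((⟨⟨t, h⟩, i⟩, false) : B0 × Bool)).card = (e t).rank := by
        rw [card_image_of_injective _ (by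
          intro i j hij
          exact eq_of_heq (Sigma.mk.inj_iff.1 (Prod.ext_iff.1 hij).1).2), card_univ,
          Fintype.card_fin]
        rfl
      rw [← h2]
      refine card_le_card ?_
      intro a ha
      obtain ⟨i, -, rfl⟩ := mem_image.1 ha
      simp [ty]

end Pool.Agent.Y87.SU
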