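import Mathlib

/-!
# The combinatorial core of the first fundamental theorem for products of special linear groups in
small degree (helper87, after the orthogonal case of helper417)
-/

set_option autoImplicit false

open Finset

namespace Pool.Agent.Y87.SU

section core

variable {F : Type*} [Field F] {B T : Type*} [Fintype B] [DecidableEq B] [Fintype T]
  [DecidableEq T] {k n : ℕ}

/-- `K` with the position `p` replaced by `m` and `j` by the dual index of `m` -/
def up2 (hat : B → B) (K : Fin k → B) (p j : Fin k) (m : B) : Fin k → B :=
  fun i => if i = p then m else if i = j then hat m else K i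

/-- the relations given by the Lie algebra -/
def Rel (hat : B → B) (ty : B → T) (S : Finset (Fin k)) (c : (Fin k → B) → F) : Prop :=
  ∀ i m : B, i ≠ m → ty i = ty m → ∀ J : Fin k → B,
    ∑ l ∈ S with J l = m, c (Function.update J l i) =
      ∑ l ∈ S with J l = hat i, c (Function.update J l (hat m))

/-- dependence on the coordinates in `S` only -/
def Dep (S : Finset (Fin k)) (c : (Fin k → B) → F) : Prop :=
  ∀ J J' : Fin k → B, (∀ j ∈ S, J j = J' j) → c J = c J'

/-- the factors -/
def KK (hat : B → B) (ty : B → T) (w : T → F) (a b : B) : F := if b = hat a then w (ty a) else 0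

/-- the generators -/
def Gens (F : Type*) [Field F] (hat : B → B) (ty : B → T) (S : Finset (Fin k)) :
    Set ((Fin k → B) → F) :=
  {s | ∃ (σ : Fin k → Fin k) (w : Fin k → T → F), (∀ j, σ (σ j) = j) ∧ (∀ j ∈ S, σ j ≠ j) ∧
    (∀ j ∉ S, σ j = j) ∧ ∀ I, s I = ∏ j with j < σ j, KK hat ty (w j) (I j) (I (σ j))}

theorem unused {hat : B → B} {ty : B → T} (hh : ∀ a, hat (hat a) = a)
    (ht : ∀ a, ty (hat a) ≠ ty a) (t : T) (hn : n ≤ (univ.filter fun a => ty a = t).card)
    (U : Finset B) (hU : U.card < n) : ∃ b, ty b = t ∧ b ∉ U ∧ hat b ∉ U := by
  classical
  have h1 : (U.image fun u => if ty u = t then u else hat u).card <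
      (univ.filter fun a => ty a = t).card := (card_image_le.trans_lt hU).trans_le hn
  obtain ⟨b, hb, hb'⟩ := exists_mem_notMem_of_card_lt_card h1
  rw [mem_filter] at hb
  refine ⟨b, hb.2, fun h => hb' ?_, fun h => hb' ?_⟩
  · exact mem_image.mpr ⟨b, h, by rw [if_pos hb.2]⟩
  · refine mem_image.mpr ⟨hat b, h, ?_⟩
    rw [if_neg (by rw [← hb.2]; exact ht b), hh]

/-- the basic relation -/
theorem star {hat : B → B} {ty : B → T}
    (ht : ∀ a, ty (hat a) ≠ ty a) (S : Finset (Fin k)) (c : (Fin k → B) → F)
    (hr : Rel hat ty S c) (p : Fin k) (hp : p ∈ S) (I : Fin k → B) (m : B)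
    (htm : ty (I p) = ty m) (hm : ∀ j ∈ S, I j ≠ m) :
    c I = ∑ j ∈ S.erase p with I j = hat (I p), c (up2 hat I p j m) := by
  have h := hr (I p) m (hm p hp) htm (Function.update I p m)
  have h1 : (S.filter fun j => (Function.update I p m) j = m) = {p} := by
    ext j
    simp only [mem_filter, mem_singleton]
    constructor
    · rintro ⟨hj, hj'⟩
      by_contra hjp
      rw [Function.update_of_ne hjp] at hj'
      exact hm j hj hj'
    · rintro rfl
      exact ⟨hp, Function.update_self ..⟩
  have h2 : (S.filter fun j => (Function.update I p m) j = hat (I p)) =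
      (S.erase p).filter fun j => I j = hat (I p) := by
    ext j
    simp only [mem_filter, mem_erase]
    by_cases hjp : j = p
    · subst hjp
      simp only [Function.update_self, ne_eq, not_true_eq_false, false_and, iff_false, not_and]
      intro _ h'
      apply ht (I j)
      rw [← h', ← htm]
    · rw [Function.update_of_ne hjp]
      simp [hjp]
  rw [h1, h2, sum_singleton, Function.update_idem, Function.update_eq_self] at h
  rw [h]
  refine sum_congr rfl fun j hj => ?_
  congr 1
  rw [mem_filter, mem_erase] at hj
  funext i
  simp only [up2]
  by_cases hij : i = j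
  · subst hij
    rw [Function.update_self, if_neg hj.1.1, if_pos rfl]
  · rw [Function.update_of_ne hij]
    by_cases hip : i = p
    · subst hip
      simp
    · rw [Function.update_of_ne hip]
      simp [hij, hip]

theorem indep {hat : B → B} {ty : B → T}
    (ht : ∀ a, ty (hat a) ≠ ty a) (S : Finset (Fin k)) (c : (Fin k → B) → F)
    (hr : Rel hat ty S c)
    (p j : Fin k) (hp : p ∈ S) (hj : j ∈ S) (hpj : j ≠ p) (K : Fin k → B) (a b : B)
    (hab' : ty a = ty b)
    (ha : ∀ i ∈ (S.erase p).erase j, K i ≠ hat a) (hb : ∀ i ∈ (S.erase p).erase j, K i ≠ b) :
    c (up2 hat K p j a) = c (up2 hat K p j b) := by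
  by_cases hab : a = b
  · rw [hab]
  have hIp : (up2 hat K p j a) p = a := by simp [up2]
  have h := star ht S c hr p hp (up2 hat K p j a) b (by rw [hIp]; exact hab') (by
    intro i hi
    simp only [up2]
    split_ifs with h h'
    · exact hab
    · intro h''
      apply ht a
      rw [h'', hab']
    · exact hb i (mem_erase.mpr ⟨h', mem_erase.mpr ⟨h, hi⟩⟩))
  rw [hIp] at h
  have h2 : ((S.erase p).filter fun i => (up2 hat K p j a) i = hat a) = {j} := by
    ext i
    rw [mem_filter, mem_singleton, mem_erase]
    simp only [up2]
    constructor
    · rintro ⟨⟨hip, hi⟩, h⟩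
      by_contra hij
      rw [if_neg hip, if_neg hij] at h
      exact ha i (mem_erase.mpr ⟨hij, mem_erase.mpr ⟨hip, hi⟩⟩) h
    · rintro rfl
      exact ⟨⟨hpj, hj⟩, by simp [hpj]⟩
  have h3 : up2 hat (up2 hat K p j a) p j b = up2 hat K p j b := by
    funext i
    simp only [up2]
    split_ifs <;> rfl
  rw [h2, sum_singleton, h3] at h
  exact h

theorem key {hat : B → B} {ty : B → T} (hh : ∀ a, hat (hat a) = a)
    (ht : ∀ a, ty (hat a) ≠ ty a) (hn : ∀ t : T, n ≤ (univ.filter fun a => ty a = t).card) :
    ∀ (S : Finset (Fin k)), S.card < n → ∀ c : (Fin k → B) → F, Dep S c → Rel hat ty S c →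
      c ∈ Submodule.span F (Gens F hat ty S) := by
  intro S
  induction S using Finset.strongInduction with
  | H S IH =>
    intro hS c hdep hrel
    rcases S.eq_empty_or_nonempty with rfl | hne
    · rcases isEmpty_or_nonempty (Fin k → B) with hemp | ⟨⟨J0⟩⟩
      · have h1 : c = 0 := by
          funext J
          exact hemp.elim J
        rw [h1]
        exact Submodule.zero_mem _
      · have h1 : c = c J0 • (fun _ => (1 : F)) := by
          funext J
          simp only [Pi.smul_apply, smul_eq_mul, mul_one]
          exact hdep _ _ (by simp)
        rw [h1]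
        refine Submodule.smul_mem _ _ (Submodule.subset_span
          ⟨id, fun _ _ => 0, by simp, by simp, by simp, ?_⟩)
        intro I
        simp
    · obtain ⟨p, hp, hmin⟩ := S.exists_min_image id hne
      simp only [id] at hmin
      -- the coefficient functions
      have hcard : ∀ j ∈ S.erase p, ((S.erase p).erase j).card + 2 = S.card := by
        intro j hj
        rw [card_erase_of_mem hj, card_erase_of_mem hp]
        have : 0 < (S.erase p).card := card_pos.mpr ⟨j, hj⟩
        rw [card_erase_of_mem hp] at this
        omega
      have hβ : ∀ (j : Fin k) (t : T) (K : Fin k → B), ∃ b, j ∈ S.erase p → ty b = t ∧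
          ∀ i ∈ (S.erase p).erase j, K i ≠ b ∧ K i ≠ hat b := by
        intro j t K
        by_cases hj : j ∈ S.erase p
        · obtain ⟨b, hb0, hb, hb'⟩ := unused hh ht t (hn t) (((S.erase p).erase j).image K)
            (lt_of_le_of_lt card_image_le (by have := hcard j hj; omega))
          exact ⟨b, fun _ => ⟨hb0, fun i hi => ⟨fun h => hb (mem_image.mpr ⟨i, hi, h⟩),
            fun h => hb' (mem_image.mpr ⟨i, hi, h⟩)⟩⟩⟩
        · exact ⟨K p, fun h => absurd h hj⟩
      choose β hβ using hβ
      let cc : Fin k → T → (Fin k → B) → F := fun j t K => c (up2 hat K p j (β j t K))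
      have hcc : ∀ j ∈ S.erase p, ∀ (t : T) (K : Fin k → B) (b : B), ty b = t →
          (∀ i ∈ (S.erase p).erase j, K i ≠ b) → cc j t K = c (up2 hat K p j b) := by
        intro j hj t K b hbt hb
        exact indep ht S c hrel p j hp (mem_of_mem_erase hj) (ne_of_mem_erase hj) K _ _
          ((hβ j t K hj).1.trans hbt.symm) (fun i hi => ((hβ j t K hj).2 i hi).2) hb
      have hsum : c = ∑ j ∈ S.erase p, ∑ t : T,
          fun I => KK hat ty (fun s => if s = t then 1 else 0) (I p) (I j) * cc j t I := by
        funext I
        rw [Finset.sum_apply]
        obtain ⟨b, hbt, hb, hb2⟩ := unused hh ht (ty (I p)) (hn _) (S.image I)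
          (lt_of_le_of_lt card_image_le hS)
        have hb' : ∀ j ∈ S, I j ≠ b := fun j hj h => hb (mem_image.mpr ⟨j, hj, h⟩)
        have h := star ht S c hrel p hp I b hbt.symm hb'
        rw [h, sum_filter]
        refine sum_congr rfl fun j hj => ?_
        rw [Finset.sum_apply, Finset.sum_eq_single (ty (I p))]
        · rw [hcc j hj (ty (I p)) I b hbt fun i hi => hb' i (mem_of_mem_erase (mem_of_mem_erase hi)),
            KK]
          by_cases hij : I j = hat (I p)
          · rw [if_pos hij, if_pos hij, if_pos rfl, one_mul]
          · rw [if_neg hij, if_neg hij, zero_mul]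
        · intro t _ htt
          have h0 : KK hat ty (fun s => if s = t then (1 : F) else 0) (I p) (I j) = 0 := by
            rw [KK]
            split_ifs with h1 h2
            · exact absurd h2.symm htt
            · rfl
            · rfl
          rw [h0, zero_mul]
        · intro h
          exact absurd (mem_univ _) h
      rw [hsum]
      refine Submodule.sum_mem _ fun j hj => Submodule.sum_mem _ fun t _ => ?_
      have hjS : j ∈ S := mem_of_mem_erase hj
      have hjp : j ≠ p := ne_of_mem_erase hj
      have hpj : p < j := lt_of_le_of_ne (hmin j hjS) (Ne.symm hjp)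
      have hss : (S.erase p).erase j ⊂ S :=
        (erase_ssubset hj).trans (erase_ssubset hp)
      have hIH := IH ((S.erase p).erase j) hss (lt_of_le_of_lt (card_le_card hss.1) hS) (cc j t) (by
        intro J J' hJ
        rw [hcc j hj t J' (β j t J) (hβ j t J hj).1
          (fun i hi => by rw [← hJ i hi]; exact ((hβ j t J hj).2 i hi).1)]
        simp only [cc]
        refine hdep _ _ fun i hi => ?_
        simp only [up2]
        split_ifs with h h'
        · rfl
        · rfl
        · exact hJ i (mem_erase.mpr ⟨h', mem_erase.mpr ⟨h, hi⟩⟩)) (by
        intro a b hab htab J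
        obtain ⟨b', hbt, hb', hb''⟩ := unused hh ht t (hn t)
          ((((S.erase p).erase j).image J) ∪ {a, b}) (by
          refine lt_of_le_of_lt (card_union_le _ _) ?_
          have h1 : (((S.erase p).erase j).image J).card ≤ ((S.erase p).erase j).card :=
            card_image_le
          have h2 : ({a, b} : Finset B).card ≤ 2 := card_le_two
          have := hcard j hj
          omega)
        simp only [mem_union, mem_image, mem_insert, mem_singleton, not_or, not_exists,
          not_and] at hb' hb''
        obtain ⟨hb1, hb2, hb3⟩ := hb'
        obtain ⟨hb4, hb5, hb6⟩ := hb''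
        -- `b' ∉ {a, b, hat a, hat b}`
        have hb7 : hat a ≠ b' := fun h => hb5 (by rw [← h, hh])
        have hb8 : hat b ≠ b' := fun h => hb6 (by rw [← h, hh])
        have hup : ∀ (i : Fin k) (x : B), i ∈ (S.erase p).erase j → x ≠ b' →
            cc j t (Function.update J i x) = c (Function.update (up2 hat J p j b') i x) := by
          intro i x hi hx
          rw [hcc j hj t _ b' hbt]
          · congr 1
            funext l
            simp only [up2]
            rw [mem_erase, mem_erase] at hi
            by_cases hli : l = i
            · subst hli
              simp [hi.1, hi.2.1]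
            · rw [Function.update_of_ne hli, Function.update_of_ne hli]
              rfl
          · intro l hl
            by_cases hli : l = i
            · subst hli
              rw [Function.update_self]
              exact hx
            · rw [Function.update_of_ne hli]
              exact hb1 l hl
        have hfil : ∀ x : B, x ≠ b' → x ≠ hat b' →
            (S.filter fun i => (up2 hat J p j b') i = x) =
            ((S.erase p).erase j).filter fun i => J i = x := by
          intro x hx hx'
          ext i
          rw [mem_filter, mem_filter, mem_erase, mem_erase]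
          simp only [up2]
          by_cases hip : i = p
          · subst hip
            simp [hx.symm]
          · by_cases hij : i = j
            · subst hij
              simp [hx'.symm, hip]
            · simp [hip, hij]
        have h := hrel a b hab htab (up2 hat J p j b')
        have hne1 : hat a ≠ hat b' := fun h => hb2 (by rw [← hh b', ← h, hh])
        rw [hfil b (Ne.symm hb3) (fun h => hb6 h.symm), hfil (hat a) hb7 hne1] at h
        have h1 : ∑ i ∈ (S.erase p).erase j with J i = b, cc j t (Function.update J i a) =
            ∑ i ∈ (S.erase p).erase j with J i = b,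
              c (Function.update (up2 hat J p j b') i a) :=
          sum_congr rfl fun i hi => hup i a (mem_filter.mp hi).1 (Ne.symm hb2)
        have h2 : ∑ i ∈ (S.erase p).erase j with J i = hat a,
              cc j t (Function.update J i (hat b)) =
            ∑ i ∈ (S.erase p).erase j with J i = hat a,
              c (Function.update (up2 hat J p j b') i (hat b)) :=
          sum_congr rfl fun i hi => hup i (hat b) (mem_filter.mp hi).1 hb8
        rw [h1, h2, h])
      -- multiply by the form
      let μ : ((Fin k → B) → F) →ₗ[F] ((Fin k → B) → F) :=
        LinearMap.mulLeft F (fun I => KK hat ty (fun s => if s = t then 1 else 0) (I p) (I j))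
      have hμ : (fun I => KK hat ty (fun s => if s = t then (1 : F) else 0) (I p) (I j) * cc j t I) =
        μ (cc j t) := rfl
      rw [hμ]
      have h3 : μ (cc j t) ∈ (Submodule.span F (Gens F hat ty ((S.erase p).erase j))).map μ :=
        Submodule.mem_map_of_mem hIH
      rw [Submodule.map_span] at h3
      refine Submodule.span_mono ?_ h3
      rintro _ ⟨s, ⟨σ, w, hσ1, hσ2, hσ3, hσ4⟩, rfl⟩
      have hσp : σ p = p := hσ3 p (by simp)
      have hσj : σ j = j := hσ3 j (by simp)
      have hne1 : ∀ i, i ≠ p → σ i ≠ p := by
        intro i hi h
        have := hσ1 i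
        rw [h, hσp] at this
        exact hi this.symm
      have hne2 : ∀ i, i ≠ j → σ i ≠ j := by
        intro i hi h
        have := hσ1 i
        rw [h, hσj] at this
        exact hi this.symm
      refine ⟨fun i => if i = p then j else if i = j then p else σ i,
        Function.update w p (fun s => if s = t then 1 else 0), ?_, ?_, ?_, ?_⟩
      · intro i
        by_cases hip : i = p
        · subst hip
          simp [hjp]
        · by_cases hij : i = j
          · subst hij
            simp [hip]
          · simp [hip, hij, hne1 i hip, hne2 i hij, hσ1 i]
      · intro i hi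
        by_cases hip : i = p
        · subst hip
          simp [hjp]
        · by_cases hij : i = j
          · subst hij
            simp [hip, Ne.symm hip]
          · simp only [hip, hij, if_false]
            exact hσ2 i (mem_erase.mpr ⟨hij, mem_erase.mpr ⟨hip, hi⟩⟩)
      · intro i hi
        have hip : i ≠ p := fun h => hi (h ▸ hp)
        have hij : i ≠ j := fun h => hi (h ▸ hjS)
        simp only [hip, hij, if_false]
        exact hσ3 i fun h => hi (mem_of_mem_erase (mem_of_mem_erase h))
      · intro I
        have hμs : μ s I = KK hat ty (fun s => if s = t then 1 else 0) (I p) (I j) * s I := rfl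
        rw [hμs, hσ4 I]
        have hf : (univ.filter fun i : Fin k =>
            i < (if i = p then j else if i = j then p else σ i)) =
            insert p (univ.filter fun i => i < σ i) := by
          ext i
          simp only [mem_filter, mem_univ, true_and, mem_insert]
          by_cases hip : i = p
          · subst hip
            simp [hpj]
          · by_cases hij : i = j
            · subst hij
              simp [hip, hσj, hpj.le]
            · simp [hip, hij]
        rw [hf, prod_insert (by simp [hσp])]
        congr 1
        · simp
        · refine prod_congr rfl fun i hi => ?_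
          rw [mem_filter] at hi
          have hip : i ≠ p := by
            rintro rfl
            rw [hσp] at hi
            exact lt_irrefl _ hi.2
          have hij : i ≠ j := by
            rintro rfl
            rw [hσj] at hi
            exact lt_irrefl _ hi.2
          simp [hip, hij]

end core

end Pool.Agent.Y87.SU
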