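import Pool.Agent.Y87.SU.Core
import Pool.Agent.Y87.SU.Bas2

/-!
# Project Y142-SU, task FFTU: the first fundamental theorem in small degree (helper87)
-/

set_option autoImplicit false

open Finset Matrix Module
open Pool.Agent.Y142.SU

namespace Pool.Agent.Y87.SU

variable {F : Type} [Field F] {N k : ℕ}

theorem prod_update {V : Type} (b : Fin k → V → V → F) (σ : Fin k → Fin k)
    (hσ : ∀ j, σ (σ j) = j) (hσ' : ∀ j, σ j ≠ j) (m : Fin k → V) (i : Fin k) :
    ∃ (w : V) (C : F) (l : Bool), ∀ x : V,
      ∏ j with j < σ j, b j (Function.update m i x j) (Function.update m i x (σ j)) =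
        (if l then b i x w else b (σ i) w x) * C := by
  rcases lt_or_gt_of_ne (hσ' i) with h | h
  · -- `σ i < i`
    refine ⟨m (σ i), ∏ j ∈ (univ.filter fun j => j < σ j).erase (σ i), b j (m j) (m (σ j)), false, ?_⟩
    intro x
    have hmem : σ i ∈ univ.filter fun j => j < σ j := by simp [hσ i, h]
    rw [← mul_prod_erase _ _ hmem, hσ i, Function.update_self, Function.update_of_ne (hσ' i)]
    simp only [Bool.false_eq_true, if_false]
    congr 1
    refine prod_congr rfl fun j hj => ?_
    rw [mem_erase, mem_filter] at hj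
    have h1 : j ≠ i := by
      rintro rfl
      exact lt_asymm h hj.2.2
    have h2 : σ j ≠ i := by
      intro h'
      apply hj.1
      rw [← h', hσ]
    rw [Function.update_of_ne h1, Function.update_of_ne h2]
  · refine ⟨m (σ i), ∏ j ∈ (univ.filter fun j => j < σ j).erase i, b j (m j) (m (σ j)), true, ?_⟩
    intro x
    have hmem : i ∈ univ.filter fun j => j < σ j := by simpa using h
    rw [← mul_prod_erase _ _ hmem, Function.update_self, Function.update_of_ne (hσ' i)]
    simp only [if_true]
    congr 1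
    refine prod_congr rfl fun j hj => ?_
    rw [mem_erase, mem_filter] at hj
    have h2 : σ j ≠ i := by
      intro h'
      have h3 := hσ j
      rw [h'] at h3
      rw [← h3] at hj
      rw [hσ] at hj
      exact lt_asymm h hj.2.2
    rw [Function.update_of_ne hj.1, Function.update_of_ne h2]

/-- the multilinear form of a pairing of the slots -/
def Tσ {V : Type} [AddCommGroup V] [Module F V] (b : Fin k → V →ₗ[F] V →ₗ[F] F)
    (σ : Fin k → Fin k) (hσ : ∀ j, σ (σ j) = j)
    (hσ' : ∀ j, σ j ≠ j) : MultilinearMap F (fun _ : Fin k => V) F where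
  toFun v := ∏ j with j < σ j, b j (v j) (v (σ j))
  map_update_add' := by
    intro inst m i x y
    have hinst : inst = instDecidableEqFin k := Subsingleton.elim _ _
    subst hinst
    obtain ⟨w, C, l, h⟩ := prod_update (fun j u v => b j u v) σ hσ hσ' m i
    rw [h, h, h]
    cases l <;> simp [add_mul]
  map_update_smul' := by
    intro inst m i c x
    have hinst : inst = instDecidableEqFin k := Subsingleton.elim _ _
    subst hinst
    obtain ⟨w, C, l, h⟩ := prod_update (fun j u v => b j u v) σ hσ hσ' m i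
    rw [h, h]
    cases l <;> simp [mul_assoc]

theorem Tσ_apply {V : Type} [AddCommGroup V] [Module F V] (b : Fin k → V →ₗ[F] V →ₗ[F] F)
    (σ : Fin k → Fin k) (hσ : ∀ j, σ (σ j) = j) (hσ' : ∀ j, σ j ≠ j) (v : Fin k → V) :
    Tσ b σ hσ hσ' v = ∏ j with j < σ j, b j (v j) (v (σ j)) := rfl

theorem bil_apply (A J : Matrix (Fin N) (Fin N) F) (x y : Fin N → F) :
    Matrix.toBilin' (Aᵀ * J) x y = (A *ᵥ x) ⬝ᵥ J *ᵥ y := by
  rw [Matrix.toBilin'_apply', ← mulVec_mulVec, dotProduct_mulVec x, vecMul_transpose]

theorem t : S_FFTU := by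
  intro F _ _ _ N n J 𝒞 hH hred hrank k φ hk hφ
  classical
  obtain ⟨r, e, he, he0, hid, hort, hsum, hev⟩ := idem_mat 𝒞 hH.2.2.1 hred
  obtain ⟨st, hst, hst1, hst2⟩ := exists_star hH he he0 hid hort hsum hev
  obtain ⟨ε, hε, hJ⟩ := exists_sign hH.1
  obtain ⟨B, _, _, hat, ty, q, κ, hhat, hty, hκ0, hκst, heq, hgram, hn⟩ :=
    exists_adapted hε hJ hH.2.1 hid hort hsum (fun t => hrank (e t) (he t) (hid t) (he0 t))
      hst hst1 hst2
  -- elements of `𝒞` act by scalars
  have hact : ∀ A ∈ 𝒞, ∃ α : Fin r → F, ∀ a, A *ᵥ q a = α (ty a) • q a := by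
    intro A hA
    choose α hα using hev A hA
    refine ⟨α, fun a => ?_⟩
    rw [← heq a, mulVec_mulVec, hα, smul_mulVec, heq]
  have hty' : ∀ a, ty (hat a) ≠ ty a := fun a => by rw [hty]; exact hst1 _
  -- the elements of the Lie algebra
  have hX : ∀ i m : B, i ≠ m → ty i = ty m → ∃ X : Matrix (Fin N) (Fin N) F, SULie J 𝒞 X ∧
      ∀ b, X *ᵥ q b = (if b = m then q i else 0) - (if b = hat i then q (hat m) else 0) := by
    intro i m him htim
    let c : F := (κ (ty (hat m)))⁻¹
    let X : Matrix (Fin N) (Fin N) F := c • (vecMulVec (q i) (q (hat m) ᵥ* J) -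
      ε • vecMulVec (q (hat m)) (q i ᵥ* J))
    have hXu : ∀ u, X *ᵥ u = (c * (q (hat m) ⬝ᵥ J *ᵥ u)) • q i -
        (c * (ε * (q i ⬝ᵥ J *ᵥ u))) • q (hat m) := by
      intro u
      simp only [X]
      rw [smul_mulVec, sub_mulVec, smul_mulVec, vecMulVec_mulVec, vecMulVec_mulVec, smul_sub,
        ← dotProduct_mulVec, ← dotProduct_mulVec, op_smul_eq_smul, op_smul_eq_smul, smul_smul,
        smul_smul, smul_smul, mul_assoc]
    have hκ : κ (ty (hat m)) = ε * κ (ty i) := by rw [hty, hκst, htim]
    have hXb : ∀ b, X *ᵥ q b = (if b = m then q i else 0) -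
        (if b = hat i then q (hat m) else 0) := by
      intro b
      rw [hXu, hgram, hgram, hhat]
      congr 1
      · by_cases h : b = m
        · rw [if_pos h, if_pos h]
          simp only [c]
          rw [inv_mul_cancel₀ (hκ0 _), one_smul]
        · rw [if_neg h, if_neg h, mul_zero, zero_smul]
      · by_cases h : b = hat i
        · rw [if_pos h, if_pos h]
          simp only [c]
          rw [← hκ, inv_mul_cancel₀ (hκ0 _), one_smul]
        · rw [if_neg h, if_neg h, mul_zero, mul_zero, zero_smul]
    have hcomm : ∀ A ∈ 𝒞, X * A = A * X := by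
      intro A hA
      obtain ⟨α, hα⟩ := hact A hA
      apply Matrix.toLin'.injective
      refine q.ext fun b => ?_
      rw [Matrix.toLin'_apply, Matrix.toLin'_apply, ← mulVec_mulVec, ← mulVec_mulVec, hα,
        mulVec_smul, hXb, mulVec_sub, smul_sub]
      congr 1
      · by_cases h : b = m
        · rw [if_pos h, hα, h, htim]
        · rw [if_neg h, smul_zero, mulVec_zero]
      · by_cases h : b = hat i
        · rw [if_pos h, hα, h, hty, hty, htim]
        · rw [if_neg h, smul_zero, mulVec_zero]
    refine ⟨X, ⟨hcomm, ?_, ?_⟩, hXb⟩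
    · -- skew
      have h1 : (q i : Fin N → F) ᵥ* J = ε • (J *ᵥ q i) := by
        rw [← mulVec_transpose, hJ, smul_mulVec]
      have h2 : (q (hat m) : Fin N → F) ᵥ* J = ε • (J *ᵥ q (hat m)) := by
        rw [← mulVec_transpose, hJ, smul_mulVec]
      simp only [X]
      rw [h1, h2, transpose_smul, transpose_sub, transpose_smul, transpose_vecMulVec,
        transpose_vecMulVec, smul_mul_assoc, sub_mul, smul_mul_assoc, vecMulVec_mul,
        vecMulVec_mul, mul_smul_comm, mul_sub, mul_smul_comm, mul_vecMulVec, mul_vecMulVec, h1, h2]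
      ext a b
      simp only [Matrix.add_apply, Matrix.smul_apply, Matrix.sub_apply, vecMulVec_apply,
        Pi.smul_apply, smul_eq_mul, Matrix.zero_apply]
      linear_combination (-c * ε * (J *ᵥ q i) a * (J *ᵥ q (hat m)) b) * hε
    · intro A hA
      obtain ⟨α, hα⟩ := hact A hA
      simp only [X]
      rw [smul_mul_assoc, sub_mul, smul_mul_assoc, vecMulVec_mul, vecMulVec_mul, trace_smul,
        trace_sub, trace_smul, trace_vecMulVec, trace_vecMulVec, dotProduct_comm,
        ← dotProduct_mulVec, ← dotProduct_mulVec, hα, mulVec_smul, dotProduct_smul, hgram,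
        dotProduct_comm (q (hat m)), ← dotProduct_mulVec, ← dotProduct_mulVec, hα, mulVec_smul,
        dotProduct_smul, hgram, hhat, if_neg him, if_neg, smul_zero, smul_zero, smul_zero,
        sub_zero, smul_zero]
      intro h
      exact him (by rw [← hhat i, ← h, hhat])
  -- the relations
  have hkey := key (k := k) (n := n) hhat hty' hn univ (by simpa using hk)
    (fun I => φ (fun j => q (I j)))
    (fun I I' h => by
      have : I = I' := funext fun j => h j (mem_univ _)
      rw [this]) (by
      intro i m him htim I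
      obtain ⟨X, hX1, hX2⟩ := hX i m him htim
      have h := hφ X hX1 (fun j => q (I j))
      have h2 : ∀ (j : Fin k) (x : B), Function.update (fun j => (q (I j) : Fin N → F)) j (q x) =
          fun l => q (Function.update I j x l) := by
        intro j x
        exact (Function.comp_update q I j x).symm
      have h3 : ∀ j, φ (Function.update (fun j => (q (I j) : Fin N → F)) j (X *ᵥ q (I j))) =
          (if I j = m then φ (fun l => q (Function.update I j i l)) else 0) -
          (if I j = hat i then φ (fun l => q (Function.update I j (hat m) l)) else 0) := by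
        intro j
        rw [hX2, MultilinearMap.map_update_sub]
        congr 1
        · by_cases hj : I j = m
          · rw [if_pos hj, if_pos hj, h2]
          · rw [if_neg hj, if_neg hj, MultilinearMap.map_update_zero]
        · by_cases hj : I j = hat i
          · rw [if_pos hj, if_pos hj, h2]
          · rw [if_neg hj, if_neg hj, MultilinearMap.map_update_zero]
      rw [Finset.sum_congr rfl fun j _ => h3 j, Finset.sum_sub_distrib] at h
      rw [sum_filter, sum_filter]
      exact sub_eq_zero.1 h)
  -- evaluation on the basis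
  let evq : MultilinearMap F (fun _ : Fin k => (Fin N → F)) F →ₗ[F] ((Fin k → B) → F) :=
    { toFun := fun T J => T (fun j => q (J j))
      map_add' := fun _ _ => rfl
      map_smul' := fun _ _ => rfl }
  have hinj : Function.Injective evq := by
    intro T T' h
    exact Basis.ext_multilinear (fun _ => q) fun J => congrFun h J
  let eve : MultilinearMap F (fun _ : Fin k => (Fin N → F)) F →ₗ[F] ((Fin k → Fin N → F) → F) :=
    { toFun := fun T v => T v
      map_add' := fun _ _ => rfl
      map_smul' := fun _ _ => rfl }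
  let GG : Set (MultilinearMap F (fun _ : Fin k => (Fin N → F)) F) :=
    {T | ∃ (σ : Fin k → Fin k) (h1 : ∀ j, σ (σ j) = j) (h2 : ∀ j, σ j ≠ j)
      (A : Fin k → Matrix (Fin N) (Fin N) F), (∀ j, A j ∈ 𝒞) ∧
      T = Tσ (fun j => Matrix.toBilin' ((A j)ᵀ * J)) σ h1 h2}
  have h1 : evq φ ∈ (Submodule.span F GG).map evq := by
    rw [Submodule.map_span]
    refine Submodule.span_mono ?_ hkey
    rintro s ⟨σ, w, hσ1, hσ2, -, hσ4⟩
    refine ⟨Tσ (fun j => Matrix.toBilin' ((∑ t, (w j t * (κ t)⁻¹) • e t)ᵀ * J)) σ hσ1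
      (fun j => hσ2 j (mem_univ _)), ⟨σ, hσ1, _, _, fun j => ?_, rfl⟩, ?_⟩
    · exact Subalgebra.sum_mem _ fun t _ => Subalgebra.smul_mem _ (he t) _
    · funext I
      rw [hσ4 I]
      refine (Tσ_apply _ σ hσ1 (fun j => hσ2 j (mem_univ _)) _).trans ?_
      refine prod_congr rfl fun j _ => ?_
      rw [bil_apply]
      have h4 : (∑ t, (w j t * (κ t)⁻¹) • e t) *ᵥ (q (I j) : Fin N → F) =
          (w j (ty (I j)) * (κ (ty (I j)))⁻¹) • q (I j) := by
        rw [sum_mulVec, Finset.sum_eq_single (ty (I j))]
        · rw [smul_mulVec, heq]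
        · intro t _ ht
          rw [smul_mulVec, ← heq (I j), mulVec_mulVec, hort _ _ ht, zero_mulVec, smul_zero]
        · intro h
          exact absurd (mem_univ _) h
      rw [h4, smul_dotProduct, hgram, KK]
      by_cases h : I (σ j) = hat (I j)
      · rw [if_pos h, if_pos h, smul_eq_mul, mul_assoc, inv_mul_cancel₀ (hκ0 _), mul_one]
      · rw [if_neg h, if_neg h, smul_zero]
  obtain ⟨T, hT, hT'⟩ := h1
  have h2 : φ ∈ Submodule.span F GG := by
    rw [← hinj hT']
    exact hT
  have h3 : eve φ ∈ (Submodule.span F GG).map eve := Submodule.mem_map_of_mem h2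
  rw [Submodule.map_span] at h3
  refine Submodule.span_mono ?_ h3
  rintro _ ⟨_, ⟨σ, hσ1, hσ2, A, hA, rfl⟩, rfl⟩
  refine ⟨Function.Involutive.toPerm σ hσ1, A, hσ1, hσ2, hA, fun v => ?_⟩
  refine (Tσ_apply _ σ hσ1 hσ2 _).trans ?_
  refine prod_congr rfl fun j _ => ?_
  exact bil_apply (A j) J _ _

end Pool.Agent.Y87.SU
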