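import Mathlib

/-!
# Idempotents of a commutative reduced algebra of matrices (helper87)
-/

set_option autoImplicit false

open Finset Matrix

namespace Pool.Agent.Y87.SU

/-- the structure of a finite-dimensional commutative reduced algebra -/
theorem idem_ring (F R : Type) [Field F] [IsAlgClosed F] [CommRing R] [Algebra F R]
    [Module.Finite F R] [IsReduced R] :
    ∃ (r : ℕ) (e : Fin r → R), (∀ t, e t ≠ 0) ∧ (∀ t, e t * e t = e t) ∧
      (∀ s t, s ≠ t → e s * e t = 0) ∧ ∑ t, e t = 1 ∧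
      ∀ (x : R) (t : Fin r), ∃ a : F, x * e t = a • e t := by
  classical
  have hart : IsArtinianRing R := IsArtinianRing.of_finite F R
  have hfin : Finite (MaximalSpectrum R) := inferInstance
  have := Fintype.ofFinite (MaximalSpectrum R)
  let Φ := IsArtinianRing.equivPi R
  let T := MaximalSpectrum R
  let g : Fin (Fintype.card T) ≃ T := (Fintype.equivFin T).symm
  have hΦ : ∀ (x : R) (I : T), Φ x I = Ideal.Quotient.mk I.asIdeal x := fun x I => rfl
  refine ⟨Fintype.card T, fun t => Φ.symm (Pi.single (g t) 1), ?_, ?_, ?_, ?_, ?_⟩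
  · intro t h
    have h1 := congrArg Φ h
    rw [AlgEquiv.apply_symm_apply, map_zero] at h1
    have h2 := congrFun h1 (g t)
    rw [Pi.single_eq_same, Pi.zero_apply] at h2
    have := Ideal.Quotient.nontrivial_iff.2 (g t).isMaximal.ne_top
    exact one_ne_zero h2
  · intro t
    rw [← map_mul, ← Pi.single_mul, one_mul]
  · intro s t hst
    have h1 : (Pi.single (g s) 1 : ∀ I : T, R ⧸ I.asIdeal) * Pi.single (g t) 1 = 0 := by
      funext I
      rw [Pi.mul_apply, Pi.zero_apply]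
      by_cases h : I = g s
      · have h2 : I ≠ g t := fun h' => hst (g.injective (h.symm.trans h'))
        rw [Pi.single_eq_of_ne h2, mul_zero]
      · rw [Pi.single_eq_of_ne h, zero_mul]
    rw [← map_mul, h1, map_zero]
  · rw [← map_sum, Equiv.sum_comp g (fun I : T => (Pi.single I 1 : ∀ I : T, R ⧸ I.asIdeal))]
    have h1 : (∑ I : T, Pi.single I (1 : R ⧸ I.asIdeal) : ∀ I : T, R ⧸ I.asIdeal) = 1 := by
      exact Finset.univ_sum_single (1 : ∀ I : T, R ⧸ I.asIdeal)
    rw [h1, map_one]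
  · intro x t
    have hmax := (g t).isMaximal
    letI := Ideal.Quotient.field (g t).asIdeal
    have hb : Function.Bijective (algebraMap F (R ⧸ (g t).asIdeal)) :=
      IsAlgClosed.algebraMap_bijective_of_isIntegral
    obtain ⟨a, ha⟩ := hb.2 (Ideal.Quotient.mk (g t).asIdeal x)
    refine ⟨a, ?_⟩
    apply Φ.injective
    rw [Algebra.smul_def, map_mul, map_mul, AlgEquiv.apply_symm_apply]
    funext I
    rw [Pi.mul_apply, Pi.mul_apply]
    by_cases h : I = g t
    · subst h
      rw [Pi.single_eq_same, mul_one, mul_one, hΦ, hΦ, ← ha]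
      rfl
    · rw [Pi.single_eq_of_ne h, mul_zero, mul_zero]

variable {F : Type} [Field F] {N : ℕ}

theorem idem_mat [IsAlgClosed F] (𝒞 : Subalgebra F (Matrix (Fin N) (Fin N) F))
    (hc : ∀ A ∈ 𝒞, ∀ B ∈ 𝒞, A * B = B * A) (hr : ∀ A ∈ 𝒞, IsNilpotent A → A = 0) :
    ∃ (r : ℕ) (e : Fin r → Matrix (Fin N) (Fin N) F), (∀ t, e t ∈ 𝒞) ∧ (∀ t, e t ≠ 0) ∧
      (∀ t, e t * e t = e t) ∧ (∀ s t, s ≠ t → e s * e t = 0) ∧ ∑ t, e t = 1 ∧
      ∀ A ∈ 𝒞, ∀ (t : Fin r), ∃ a : F, A * e t = a • e t := by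
  letI I : CommRing 𝒞 := { (inferInstance : Ring 𝒞) with
    mul_comm := fun A B => Subtype.ext (hc A A.2 B B.2) }
  have hred : IsReduced 𝒞 := by
    refine ⟨fun A hA => Subtype.ext (hr A A.2 ?_)⟩
    obtain ⟨m, hm⟩ := hA
    exact ⟨m, by
      have := congrArg Subtype.val hm
      exact this⟩
  obtain ⟨r, e, h1, h2, h3, h4, h5⟩ := idem_ring F 𝒞
  refine ⟨r, fun t => (e t : Matrix (Fin N) (Fin N) F), fun t => (e t).2, ?_, ?_, ?_, ?_, ?_⟩
  · intro t h
    exact h1 t (Subtype.ext h)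
  · intro t
    exact congrArg Subtype.val (h2 t)
  · intro s t hst
    exact congrArg Subtype.val (h3 s t hst)
  · have := congrArg (Subalgebra.val 𝒞) h4
    rw [map_sum, map_one] at this
    exact this
  · intro A hA t
    obtain ⟨a, ha⟩ := h5 ⟨A, hA⟩ t
    exact ⟨a, congrArg Subtype.val ha⟩

end Pool.Agent.Y87.SU
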